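import Pool.Agent.H43.Bex3

namespace Pool.Agent.Results.MP_d4a354_an.Yes

open Set Filter MeasureTheory Cardinal Pool.Agent.H43

/-- Digit sequences over `{0, ..., ⌊β⌋}`, indexed from `0`. -/
abbrev Dig (β : ℝ) : Type := Fin (⌊β⌋₊ + 1)

/-- `ε` is a `β`-expansion of `x`. -/
def IsExp (β x : ℝ) (ε : ℕ → Dig β) : Prop := HasSum (fun i => ((ε i : ℕ) : ℝ) / β ^ (i + 1)) x

/-- Proportion of the digit `k` among the first `n` digits. -/
noncomputable def freq {β : ℝ} (ε : ℕ → Dig β) (k : Dig β) (n : ℕ) : ℝ :=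
  (((Finset.range n).filter fun i => ε i = k).card : ℝ) / n

/-- Expansions of `x` with upper frequencies `pu` and lower frequencies `pl`. -/
def E (β : ℝ) (pu pl : Dig β → ℝ) (x : ℝ) : Set (ℕ → Dig β) :=
  {ε | IsExp β x ε ∧ ∀ k, limsup (freq ε k) atTop = pu k ∧ liminf (freq ε k) atTop = pl k}

/-- The interval of points that have an expansion. -/
def I (β : ℝ) : Set ℝ := Icc 0 (⌊β⌋₊ / (β - 1))

lemma ls {f : ℕ → ℝ} (h0 : ∀ n, 0 ≤ f n) (h1 : ∀ n, f n ≤ 1) (a : ℝ) :
    limsup f atTop = a ↔ ∀ δ > 0, (∀ᶠ n in atTop, f n ≤ a + δ) ∧ ∃ᶠ n in atTop, a - δ ≤ f n := by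
  have b1 : IsBoundedUnder (· ≤ ·) atTop f := isBoundedUnder_of ⟨1, h1⟩
  have b2 : IsCoboundedUnder (· ≤ ·) atTop f := isCoboundedUnder_le_of_le atTop h0
  constructor
  · rintro rfl δ hδ
    exact ⟨(eventually_lt_of_limsup_lt (by linarith) b1).mono fun n h => h.le,
      (frequently_lt_of_lt_limsup b2 (by linarith)).mono fun n h => h.le⟩
  · intro h
    refine le_antisymm (le_of_forall_pos_le_add fun δ hδ => limsup_le_of_le b2 (h δ hδ).1)
      (le_of_forall_pos_le_add fun δ hδ => ?_)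
    linarith [le_limsup_of_frequently_le (h δ hδ).2 b1]

lemma li {f : ℕ → ℝ} (h0 : ∀ n, 0 ≤ f n) (h1 : ∀ n, f n ≤ 1) (a : ℝ) :
    liminf f atTop = a ↔ ∀ δ > 0, (∀ᶠ n in atTop, a - δ ≤ f n) ∧ ∃ᶠ n in atTop, f n ≤ a + δ := by
  have b1 : IsBoundedUnder (· ≥ ·) atTop f := isBoundedUnder_of ⟨0, h0⟩
  have b2 : IsCoboundedUnder (· ≥ ·) atTop f := isCoboundedUnder_ge_of_le atTop h1
  constructor
  · rintro rfl δ hδ
    exact ⟨(eventually_lt_of_lt_liminf (by linarith) b1).mono fun n h => h.le,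
      (frequently_lt_of_liminf_lt b2 (by linarith)).mono fun n h => h.le⟩
  · intro h
    refine le_antisymm (le_of_forall_pos_le_add fun δ hδ => liminf_le_of_frequently_le (h δ hδ).2 b1)
      (le_of_forall_pos_le_add fun δ hδ => ?_)
    linarith [le_liminf_of_le b2 (h δ hδ).1]

/-- Centred indicators. -/
noncomputable def psi {β : ℝ} (pu pl : Dig β → ℝ) (i : Dig β × Bool) (d : Dig β) : ℝ :=
  cond i.2 ((if d = i.1 then 1 else 0) - pu i.1) (pl i.1 - if d = i.1 then 1 else 0)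

lemma bridge (β : ℝ) (pu pl : Dig β → ℝ) (x : ℝ) : E β pu pl x = Bex.E β (psi pu pl) x := by
  ext ε
  refine and_congr_right fun _ => ?_
  have f0 : ∀ k n, 0 ≤ freq ε k n := fun k n => by unfold freq; positivity
  have f1 : ∀ k n, freq ε k n ≤ 1 := fun k n => div_le_one_of_le₀
    (by exact_mod_cast (Finset.card_filter_le _ _).trans (Finset.card_range n).le) n.cast_nonneg
  have s1 : ∀ k, ∀ᶠ n : ℕ in atTop, (0:ℝ) < n ∧
      Bex.sm (psi pu pl (k, true)) ε n = (freq ε k n - pu k) * n ∧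
      Bex.sm (psi pu pl (k, false)) ε n = (pl k - freq ε k n) * n := fun k =>
    (eventually_gt_atTop 0).mono fun n hn => by
      have : (0:ℝ) < n := by exact_mod_cast hn
      refine ⟨this, ?_, ?_⟩ <;> simp [Bex.sm, psi, freq] <;> field_simp
  simp only [ls (f0 _) (f1 _), li (f0 _) (f1 _), Bex.Fr, Prod.forall, Bool.forall_bool]
  refine forall_congr' fun k => and_comm.trans (and_congr ?_ ?_) <;>
    refine forall_congr' fun δ => forall_congr' fun _ => and_congr
      (eventually_congr ((s1 k).mono fun n h => ?_)) (frequently_congr ((s1 k).mono fun n h => ?_))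
  · rw [h.2.2, mul_le_mul_iff_left₀ h.1]; constructor <;> intro <;> linarith
  · rw [h.2.2, ← neg_mul, mul_le_mul_iff_left₀ h.1]; constructor <;> intro <;> linarith
  · rw [h.2.1, mul_le_mul_iff_left₀ h.1]; constructor <;> intro <;> linarith
  · rw [h.2.1, ← neg_mul, mul_le_mul_iff_left₀ h.1]; constructor <;> intro <;> linarith

theorem result (β : ℝ) (hβ : 1 < β) (hn : ∀ n : ℕ, β ≠ n) (pu pl : Dig β → ℝ)
    (hu : ∀ k, pu k ∈ Icc (0:ℝ) 1) (hl : ∀ k, pl k ∈ Icc (0:ℝ) 1) :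
    (∀ᵐ x ∂volume.restrict (I β), (E β pu pl x).Nonempty) ↔
      ∀ᵐ x ∂volume.restrict (I β), #(E β pu pl x) = continuum := by
  have _ := hn
  have hb : 0 < β - 1 := by linarith
  have H : Bex.Hyp ⌊β⌋₊ β (⌊β⌋₊ / (β - 1)) :=
    ⟨hβ, by field_simp; ring, (one_lt_div hb).2 (by linarith [Nat.lt_floor_add_one β])⟩
  constructor
  · simp only [bridge]
    refine Bex.main_ae H ?_
    rintro ⟨k, e⟩ d
    have := hu k
    have := hl k
    cases e <;> simp only [psi, cond] <;> split_ifs <;> rw [abs_le] <;> constructor <;>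
      linarith [(hu k).1, (hu k).2, (hl k).1, (hl k).2]
  · exact fun h => h.mono fun x hx => nonempty_coe_sort.1 (mk_ne_zero_iff.1 (by
      rw [hx]; exact continuum_ne_zero))

end Pool.Agent.Results.MP_d4a354_an.Yes
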